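import Mathlib

/-! # Project QP: quadratic polynomials in the binary digits.  Definitions and bit toolkit -/

set_option autoImplicit false

namespace Pool.Agent.N213.QP

open Finset

/-- the set of positions of the digit one in the binary expansion -/
def bits (n : ℕ) : Finset ℕ := (range n).filter (fun i => n.testBit i = true)

/-- `Q` is a quadratic form in the binary digits (addition of digit vectors is the exclusive or),
with the polar form `B` -/
structure IsQuad (Q : ℕ → ZMod 2) (B : ℕ → ℕ → ZMod 2) : Prop where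
  zero : Q 0 = 0
  add : ∀ x y, Q (x ^^^ y) = Q x + Q y + B x y
  lin : ∀ x x' y, B (x ^^^ x') y = B x y + B x' y
  symm : ∀ x y, B x y = B y x

/-- the sign `(-1) ^ x` -/
noncomputable def sg (x : ZMod 2) : ℂ := if x = 0 then 1 else -1

/-- the character `i ^ x` of `ZMod 4` -/
noncomputable def ps (x : ZMod 4) : ℂ := Complex.I ^ x.val

/-- quadratic phases modulo 4 -/
def qf (A : ℕ → ℕ → ZMod 4) (c : ℕ → ZMod 4) (n : ℕ) : ZMod 4 :=
  ∑ i ∈ bits n, ∑ j ∈ bits n, A i j + ∑ i ∈ bits n, c i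

/-- `A i j = 0` if the distance of `i` and `j` is at least `D` -/
def Banded (D : ℕ) (A : ℕ → ℕ → ZMod 4) : Prop := ∀ i j, i + D ≤ j ∨ j + D ≤ i → A i j = 0

/-- the content of the window of length `W` at the position `s` -/
def ct (s W n : ℕ) : ℕ := n / 2 ^ s % 2 ^ W

/-- the windows of length `W` at `s` and `s'` are disjoint -/
def Sep (W s s' : ℕ) : Prop := s + W ≤ s' ∨ s' + W ≤ s

/-! ### toolkit -/

theorem mem_bits {n i : ℕ} : i ∈ bits n ↔ n.testBit i = true := by
  unfold bits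
  rw [mem_filter, mem_range]
  constructor
  · exact fun h => h.2
  · intro h
    refine ⟨?_, h⟩
    have := Nat.ge_two_pow_of_testBit h
    exact lt_of_lt_of_le Nat.lt_two_pow_self this

theorem bits_zero : bits 0 = ∅ := by
  unfold bits; simp

theorem testBit_low {K n i : ℕ} (h : n < 2 ^ K) (hi : K ≤ i) : n.testBit i = false :=
  Nat.testBit_lt_two_pow (lt_of_lt_of_le h (Nat.pow_le_pow_right (by norm_num) hi))

theorem testBit_add_high {K l t i : ℕ} (h : l < 2 ^ K) :
    (l + 2 ^ K * t).testBit i = if i < K then l.testBit i else t.testBit (i - K) := by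
  rw [add_comm]
  exact Nat.testBit_two_pow_mul_add t h i

theorem testBit_mul_pow {K t i : ℕ} :
    (2 ^ K * t).testBit i = (decide (K ≤ i) && t.testBit (i - K)) := by
  rw [Nat.testBit_two_pow_mul]

/-- exclusive or acts on the low part only -/
theorem xor_low {K l t u : ℕ} (h : l < 2 ^ K) (hu : u < 2 ^ K) :
    (l + 2 ^ K * t) ^^^ u = (l ^^^ u) + 2 ^ K * t := by
  apply Nat.eq_of_testBit_eq
  intro i
  rw [Nat.testBit_xor, testBit_add_high h, testBit_add_high (Nat.xor_lt_two_pow h hu)]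
  by_cases hi : i < K
  · rw [if_pos hi, if_pos hi, Nat.testBit_xor]
  · rw [if_neg hi, if_neg hi, testBit_low hu (not_lt.1 hi)]
    simp

/-- exclusive or acts on the high part only -/
theorem xor_high {K l t u : ℕ} (h : l < 2 ^ K) :
    (l + 2 ^ K * t) ^^^ (2 ^ K * u) = l + 2 ^ K * (t ^^^ u) := by
  apply Nat.eq_of_testBit_eq
  intro i
  rw [Nat.testBit_xor, testBit_add_high h, testBit_add_high h, testBit_mul_pow]
  by_cases hi : i < K
  · rw [if_pos hi, if_pos hi]
    simp [not_le.2 hi]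
  · rw [if_neg hi, if_neg hi, Nat.testBit_xor]
    simp [not_lt.1 hi]

/-- the sum over a dyadic block is invariant under exclusive or with a number below `2 ^ K` -/
theorem block_xor {R : Type*} [AddCommMonoid R] (K t u : ℕ) (hu : u < 2 ^ K) (G : ℕ → R) :
    ∑ x ∈ range (2 ^ K), G ((x + 2 ^ K * t) ^^^ u) = ∑ x ∈ range (2 ^ K), G (x + 2 ^ K * t) := by
  refine Finset.sum_nbij' (fun x => x ^^^ u) (fun x => x ^^^ u) ?_ ?_ ?_ ?_ ?_
  · intro x hx
    rw [mem_range] at hx ⊢
    exact Nat.xor_lt_two_pow hx hu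
  · intro x hx
    rw [mem_range] at hx ⊢
    exact Nat.xor_lt_two_pow hx hu
  · intro x _
    rw [Nat.xor_assoc, Nat.xor_self, Nat.xor_zero]
  · intro x _
    rw [Nat.xor_assoc, Nat.xor_self, Nat.xor_zero]
  · intro x hx
    rw [xor_low (mem_range.1 hx) hu]

theorem ct_lt (s W n : ℕ) : ct s W n < 2 ^ W := Nat.mod_lt _ (by positivity)

theorem testBit_ct {s W n i : ℕ} :
    (ct s W n).testBit i = (decide (i < W) && n.testBit (s + i)) := by
  unfold ct
  rw [Nat.testBit_mod_two_pow, Nat.testBit_div_two_pow, add_comm i s]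

/-- exclusive or in the window -/
theorem ct_xor_self {s W n v : ℕ} (hv : v < 2 ^ W) :
    ct s W (n ^^^ (2 ^ s * v)) = ct s W n ^^^ v := by
  apply Nat.eq_of_testBit_eq
  intro i
  rw [Nat.testBit_xor, testBit_ct, testBit_ct, Nat.testBit_xor, testBit_mul_pow]
  by_cases hi : i < W
  · simp [hi]
  · simp [hi, testBit_low hv (not_lt.1 hi)]

/-- exclusive or in a disjoint window -/
theorem ct_xor_sep {s s' W n v : ℕ} (hv : v < 2 ^ W) (h : Sep W s s') :
    ct s W (n ^^^ (2 ^ s' * v)) = ct s W n := by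
  apply Nat.eq_of_testBit_eq
  intro i
  rw [testBit_ct, testBit_ct, Nat.testBit_xor, testBit_mul_pow]
  by_cases hi : i < W
  · have : (decide (s' ≤ s + i) && v.testBit (s + i - s')) = false := by
      rcases h with h | h
      · have : ¬ s' ≤ s + i := by omega
        simp [this]
      · rw [testBit_low hv (by omega)]
        simp
    rw [this]
    simp
  · simp [hi]

theorem mask_lt {s W K v : ℕ} (hv : v < 2 ^ W) (h : s + W ≤ K) : 2 ^ s * v < 2 ^ K := by
  calc 2 ^ s * v < 2 ^ s * 2 ^ W := Nat.mul_lt_mul_of_pos_left hv (by positivity)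
    _ = 2 ^ (s + W) := (pow_add _ _ _).symm
    _ ≤ 2 ^ K := Nat.pow_le_pow_right (by norm_num) h

theorem decomp (n s : ℕ) : n = n % 2 ^ s + 2 ^ s * (n / 2 ^ s) := (Nat.mod_add_div n (2 ^ s)).symm

/-- a number in terms of the content of a window -/
theorem decomp3 (n s W : ℕ) :
    n = n % 2 ^ s + 2 ^ s * ct s W n + 2 ^ (s + W) * (n / 2 ^ (s + W)) := by
  have h1 := Nat.mod_add_div n (2 ^ s)
  have h2 := Nat.mod_add_div (n / 2 ^ s) (2 ^ W)
  have h3 : n / 2 ^ s / 2 ^ W = n / 2 ^ (s + W) := by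
    rw [Nat.div_div_eq_div_mul, pow_add]
  unfold ct
  rw [h3] at h2
  calc n = n % 2 ^ s + 2 ^ s * (n / 2 ^ s) := h1.symm
    _ = n % 2 ^ s + 2 ^ s * (n / 2 ^ s % 2 ^ W + 2 ^ W * (n / 2 ^ (s + W))) := by rw [h2]
    _ = _ := by rw [pow_add]; ring

theorem ct_of {s W l v t : ℕ} (hl : l < 2 ^ s) (hv : v < 2 ^ W) :
    ct s W (l + 2 ^ s * v + 2 ^ (s + W) * t) = v := by
  unfold ct
  rw [pow_add, show l + 2 ^ s * v + 2 ^ s * 2 ^ W * t = l + 2 ^ s * (v + 2 ^ W * t) by ring,
    Nat.add_mul_div_left _ _ (by positivity), Nat.div_eq_of_lt hl, zero_add,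
    Nat.add_mul_mod_self_left, Nat.mod_eq_of_lt hv]

theorem IsQuad.selfB {Q : ℕ → ZMod 2} {B : ℕ → ℕ → ZMod 2} (h : IsQuad Q B) (x : ℕ) : B x x = 0 := by
  have := h.add x x
  rw [Nat.xor_self, h.zero] at this
  have h2 : Q x + Q x = 0 := CharTwo.add_self_eq_zero _
  rw [h2, zero_add] at this
  exact this.symm

theorem IsQuad.zeroB {Q : ℕ → ZMod 2} {B : ℕ → ℕ → ZMod 2} (h : IsQuad Q B) (y : ℕ) : B 0 y = 0 := by
  have := h.lin 0 0 y
  rw [Nat.xor_self] at this
  have h2 : B 0 y + B 0 y = 0 := CharTwo.add_self_eq_zero _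
  rw [h2] at this
  exact this

theorem IsQuad.linr {Q : ℕ → ZMod 2} {B : ℕ → ℕ → ZMod 2} (h : IsQuad Q B) (x y y' : ℕ) :
    B x (y ^^^ y') = B x y + B x y' := by
  rw [h.symm, h.lin, h.symm y, h.symm y']

/-- the mixed second difference of a quadratic form is its polar form -/
theorem IsQuad.four {Q : ℕ → ZMod 2} {B : ℕ → ℕ → ZMod 2} (h : IsQuad Q B) (x u v : ℕ) :
    Q x + Q (x ^^^ u) + Q (x ^^^ v) + Q (x ^^^ u ^^^ v) = B u v := by
  rw [h.add (x ^^^ u) v, h.add x u, h.add x v, h.lin]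
  have h2 : ∀ z : ZMod 2, z + z = 0 := fun z => CharTwo.add_self_eq_zero z
  linear_combination h2 (Q x) + h2 (Q x) + h2 (Q u) + h2 (Q v) + h2 (B x u) + h2 (B x v)

theorem zmod2 (x : ZMod 2) : x = 0 ∨ x = 1 := by
  revert x; decide

theorem sg_zero : sg 0 = 1 := by simp [sg]

theorem sg_one : sg 1 = -1 := by simp [sg]

theorem sg_add (x y : ZMod 2) : sg (x + y) = sg x * sg y := by
  rcases zmod2 x with rfl | rfl <;> rcases zmod2 y with rfl | rfl
  · simp [sg_zero]
  · simp [sg_zero]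
  · simp [sg_zero]
  · rw [CharTwo.add_self_eq_zero, sg_zero, sg_one]; norm_num

theorem norm_sg (x : ZMod 2) : ‖sg x‖ = 1 := by
  rcases zmod2 x with rfl | rfl
  · simp [sg_zero]
  · simp [sg_one]

theorem ps_zero : ps 0 = 1 := by simp [ps]

theorem ps_add (x y : ZMod 4) : ps (x + y) = ps x * ps y := by
  unfold ps
  rw [← pow_add, ZMod.val_add]
  have h : ∀ k : ℕ, Complex.I ^ (k % 4) = Complex.I ^ k := by
    intro k
    conv_rhs => rw [← Nat.mod_add_div k 4, pow_add, pow_mul, Complex.I_pow_four, one_pow, mul_one]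
  exact h _

theorem norm_ps (x : ZMod 4) : ‖ps x‖ = 1 := by
  unfold ps
  rw [norm_pow, Complex.norm_I, one_pow]

theorem ps_ne_zero (x : ZMod 4) : ps x ≠ 0 := by
  intro h
  have := norm_ps x
  rw [h, norm_zero] at this
  exact zero_ne_one this

theorem star_ps (x : ZMod 4) : star (ps x) = ps (-x) := by
  have h1 : ps (-x) * ps x = 1 := by rw [← ps_add, neg_add_cancel, ps_zero]
  have h2 : star (ps x) * ps x = 1 := by
    have : (starRingEnd ℂ) (ps x) * ps x = ((‖ps x‖ ^ 2 : ℝ) : ℂ) := by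
      rw [mul_comm, Complex.mul_conj']
      push_cast
      rfl
    rw [norm_ps] at this
    simpa using this
  exact mul_right_cancel₀ (ps_ne_zero x) (h2.trans h1.symm)

theorem ps_sum {ι : Type*} (s : Finset ι) (f : ι → ZMod 4) : ps (∑ i ∈ s, f i) = ∏ i ∈ s, ps (f i) := by
  classical
  induction s using Finset.induction_on with
  | empty => simp [ps_zero]
  | insert a s ha ih => rw [Finset.sum_insert ha, Finset.prod_insert ha, ps_add, ih]

theorem mem_bits_mul {K t i : ℕ} : i ∈ bits (2 ^ K * t) ↔ K ≤ i ∧ i - K ∈ bits t := by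
  rw [mem_bits, mem_bits, testBit_mul_pow]
  simp

theorem bits_add_high {K l t : ℕ} (h : l < 2 ^ K) :
    bits (l + 2 ^ K * t) = bits l ∪ bits (2 ^ K * t) := by
  ext i
  rw [mem_union, mem_bits, mem_bits, mem_bits, testBit_add_high h, testBit_mul_pow]
  by_cases hi : i < K
  · rw [if_pos hi]
    simp [not_le.2 hi]
  · rw [if_neg hi, testBit_low h (not_lt.1 hi)]
    simp [not_lt.1 hi]

theorem bits_disj {K l t : ℕ} (h : l < 2 ^ K) : Disjoint (bits l) (bits (2 ^ K * t)) := by
  rw [Finset.disjoint_left]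
  intro i hi hj
  rw [mem_bits] at hi
  rw [mem_bits_mul] at hj
  rw [testBit_low h hj.1] at hi
  simp at hi

/-- a quadratic phase at a sum of a low and a high part -/
theorem qf_add_high (A : ℕ → ℕ → ZMod 4) (c : ℕ → ZMod 4) {K l t : ℕ} (h : l < 2 ^ K) :
    qf A c (l + 2 ^ K * t) = qf A c l + qf A c (2 ^ K * t) +
      ∑ i ∈ bits l, ∑ j ∈ bits (2 ^ K * t), (A i j + A j i) := by
  unfold qf
  rw [bits_add_high h, sum_union (bits_disj h), sum_union (bits_disj h)]
  simp_rw [sum_union (bits_disj h), sum_add_distrib]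
  rw [sum_comm (s := bits (2 ^ K * t)) (t := bits l)]
  ring

end Pool.Agent.N213.QP
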